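import Pool.Agent.Results.MP_ccb155_nt.SparseExceptions
import Pool.Agent.V1172.PW.Eng
import Pool.Agent.Y854.GM.Win

/-!
# Mahler's bound `‖e^x‖ > e^{-cx}` for all integers in shrinking residue classes and in windows

Let `ρ ≥ 0` be such that at most `O(X^ρ)` integers `x ≤ X` violate Mahler's bound `‖e^x‖ > e^{-cx}`, where `‖·‖` is the distance
to the nearest integer. Then the bound holds for ALL integers `x` of the following sets (`Holds c ρ`).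

(1) Let `l` be a prime number and `s > 0`. For all `l`-adic integers `a` outside of a set of Hausdorff dimension at most `ρ / s`
and all large `T`: all `x ≤ T` with `|x - a|_l ≤ T^{-s}`, that is, in the residue class of `a` modulo the least `l^f ≥ T^s`.

(2) Let `1 ≤ u_0, u_1, …` be reals with `∑ u_m^{-t} < ∞` for all `t > τ`, `θ < 1`. For all `a > 0` outside of a set of Hausdorff
dimension at most `(ρ + τ) / (1 - θ)` and all large `m`: all `x` with `|x - a u_m| ≤ u_m^θ`.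

By the starting theorem `SparseExceptions` this applies for every `c > 0` with some `ρ < 1`, and for every `ρ > 1/2` with some `c`.
-/

set_option autoImplicit false

namespace Pool.Agent.Results.MP_ccb155_nt.IntegersNearPlaces

/-- Mahler's bound `‖e^x‖ > e^{-cx}` -/
def Mahler (c : ℝ) (x : ℕ) : Prop := Real.exp (-(c * x)) < |Real.exp x - round (Real.exp x)|

/-- the bound for ALL integers in shrinking residue classes of typical `l`-adic integers and in windows at typical places,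
with exceptional sets of dimension at most `ρ / s` and `(ρ + τ) / (1 - θ)` -/
def Holds (c ρ : ℝ) : Prop :=
  (∀ (l : ℕ) [Fact l.Prime] (s : ℝ), 0 < s → ∃ E : Set ℤ_[l], dimH E ≤ ENNReal.ofReal (ρ / s) ∧ ∀ a : ℤ_[l], a ∉ E →
    ∃ T₀ : ℝ, ∀ T : ℝ, T₀ ≤ T → ∀ x : ℕ, 1 ≤ x → (x : ℝ) ≤ T → ‖(x : ℤ_[l]) - a‖ ≤ T ^ (-s) → Mahler c x) ∧
  (∀ (u : ℕ → ℝ) (τ θ : ℝ), (∀ m, 1 ≤ u m) → 0 ≤ τ → (∀ t : ℝ, τ < t → Summable fun m : ℕ => u m ^ (-t)) → θ < 1 →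
    ∃ Z : Set ℝ, dimH Z ≤ ENNReal.ofReal ((ρ + τ) / (1 - θ)) ∧ ∀ a : ℝ, 0 < a → a ∉ Z →
      ∃ m₀ : ℕ, ∀ m : ℕ, m₀ ≤ m → ∀ x : ℕ, 1 ≤ x → |(x : ℝ) - a * u m| ≤ u m ^ θ → Mahler c x)

theorem holds_of {c ρ D : ℝ} (hρ : 0 ≤ ρ) (h : ∀ X : ℕ, 1 ≤ X → (((Finset.Icc 1 X).filter
      (fun x : ℕ => |Real.exp x - round (Real.exp x)| ≤ Real.exp (-(c * x)))).card : ℝ) ≤ D * (X : ℝ) ^ ρ) :
    Holds c ρ := by
  classical
  obtain ⟨B, hB⟩ : ∃ B : Set ℕ, B = {x : ℕ | 1 ≤ x ∧ ¬ Mahler c x} := ⟨_, rfl⟩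
  have hfin : ∀ X : ℝ, {t : ℕ | t ∈ B ∧ (t : ℝ) ≤ X}.Finite := fun X =>
    (Set.finite_Icc 0 ⌊X⌋₊).subset fun t ht => ⟨Nat.zero_le _, Nat.le_floor ht.2⟩
  have hcount : ∀ X : ℝ, 1 ≤ X → ({t : ℕ | t ∈ B ∧ (t : ℝ) ≤ X}.ncard : ℝ) ≤ |D| * X ^ ρ := by
    intro X hX
    have h1 : 1 ≤ ⌊X⌋₊ := Nat.le_floor (by exact_mod_cast hX)
    have hsub : {t : ℕ | t ∈ B ∧ (t : ℝ) ≤ X} ⊆ (((Finset.Icc 1 ⌊X⌋₊).filter
        (fun x : ℕ => |Real.exp x - round (Real.exp x)| ≤ Real.exp (-(c * x))) : Finset ℕ) : Set ℕ) := by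
      rintro t ⟨ht, htX⟩
      rw [hB] at ht
      rw [Finset.mem_coe, Finset.mem_filter, Finset.mem_Icc]
      exact ⟨⟨ht.1, Nat.le_floor htX⟩, not_lt.1 ht.2⟩
    have h2 := Set.ncard_le_ncard hsub (Finset.finite_toSet _)
    rw [Set.ncard_coe_finset] at h2
    have h3 : ((⌊X⌋₊ : ℕ) : ℝ) ^ ρ ≤ X ^ ρ := Real.rpow_le_rpow (Nat.cast_nonneg _) (Nat.floor_le (by linarith)) hρ
    calc ({t : ℕ | t ∈ B ∧ (t : ℝ) ≤ X}.ncard : ℝ) ≤ _ := by exact_mod_cast h2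
      _ ≤ D * ((⌊X⌋₊ : ℕ) : ℝ) ^ ρ := h ⌊X⌋₊ h1
      _ ≤ |D| * ((⌊X⌋₊ : ℕ) : ℝ) ^ ρ := mul_le_mul_of_nonneg_right (le_abs_self D) (by positivity)
      _ ≤ |D| * X ^ ρ := mul_le_mul_of_nonneg_left h3 (abs_nonneg D)
  constructor
  · intro l _ s hs
    obtain ⟨E, h1, h2⟩ := Pool.Agent.V1172.PW.nats l (ι := Unit) (fun _ => B) hρ (fun _ => ⟨|D|, hcount⟩) hs
    refine ⟨E, h1, fun a ha => ?_⟩
    obtain ⟨T₀, hT⟩ := h2 a ha ()
    refine ⟨T₀, fun T hT1 x hx hxT hxa => ?_⟩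
    by_contra hcon
    refine hT T hT1 x hxT hxa ?_
    rw [hB]
    exact ⟨hx, hcon⟩
  · intro u τ θ hu hτ hgrow hθ
    obtain ⟨Z, h1, h2⟩ := Pool.Agent.Y854.GM.windows B (fun n : ℕ => (n : ℝ)) hu hτ hgrow hρ hθ
      (fun ε hε => ⟨|D|, fun X hX => ⟨hfin X, (hcount X hX).trans (mul_le_mul_of_nonneg_left
        (Real.rpow_le_rpow_of_exponent_le hX (by linarith)) (abs_nonneg D))⟩⟩)
    refine ⟨Z, h1, fun a ha haZ => ?_⟩
    obtain ⟨m₀, hm₀⟩ := h2 a ha haZ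
    refine ⟨m₀, fun m hm x hx hxm => ?_⟩
    by_contra hcon
    refine absurd hxm (not_le.2 (hm₀ m hm x ?_))
    rw [hB]
    exact ⟨hx, hcon⟩

/-- **Theorem.** (1) For `m ≥ 1`, `c > 0`, `0 < κ < (mc - 1) / (m (m + 1) (c + 1))`, Mahler's bound `‖e^x‖ > e^{-cx}` holds for
ALL integers of the residue classes and windows of `Holds`, with `ρ = 1 - κ`. (2) For every `c > 0` with some `ρ < 1`. (3) For
every `ε > 0` with `ρ = 1/2 + ε` and some `c`. -/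
theorem result :
    (∀ (m : ℕ) (c κ : ℝ), 1 ≤ m → 0 < c → 0 < κ → κ * (m * (m + 1) * (c + 1)) < m * c - 1 → Holds c (1 - κ)) ∧
    (∀ c : ℝ, 0 < c → ∃ ρ : ℝ, 0 ≤ ρ ∧ ρ < 1 ∧ Holds c ρ) ∧
    (∀ ε : ℝ, 0 < ε → ∃ c : ℝ, 0 < c ∧ Holds c (1 / 2 + ε)) := by
  refine ⟨fun m c κ hm hc hκ0 hκ => ?_, fun c hc => ?_, fun ε hε => ?_⟩
  · obtain ⟨-, D, hD⟩ := SparseExceptions.result.1 m c κ hm hc hκ0 hκ
    refine holds_of ?_ hD
    by_contra hcon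
    push Not at hcon
    have hm1 : (1 : ℝ) ≤ m := by exact_mod_cast hm
    have h1 : 0 ≤ (m : ℝ) * (m + 1) * (c + 1) := by positivity
    have h2 : (m : ℝ) * (m + 1) * (c + 1) ≤ κ * (m * (m + 1) * (c + 1)) :=
      le_mul_of_one_le_left h1 (by linarith)
    have h3 : (m : ℝ) * c ≤ m * (m + 1) * (c + 1) := by
      have h4 : (m : ℝ) * c ≤ m * (c + 1) := by nlinarith
      have h5 : (m : ℝ) * (c + 1) ≤ m * (c + 1) * (m + 1) := le_mul_of_one_le_right (by positivity) (by linarith)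
      calc (m : ℝ) * c ≤ m * (c + 1) := h4
        _ ≤ m * (c + 1) * (m + 1) := h5
        _ = m * (m + 1) * (c + 1) := by ring
    linarith
  · obtain ⟨δ, hδ, D, hD⟩ := SparseExceptions.result.2.1 c hc
    have hm : 0 < min δ 1 := lt_min hδ one_pos
    have hm1 : min δ 1 ≤ 1 := min_le_right _ _
    refine ⟨1 - min δ 1, by linarith, by linarith, holds_of (D := |D|) (by linarith) fun X hX => (hD X hX).trans ?_⟩
    have hX1 : (1 : ℝ) ≤ X := by exact_mod_cast hX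
    have h1 : (X : ℝ) ^ (1 - δ) ≤ (X : ℝ) ^ (1 - min δ 1) :=
      Real.rpow_le_rpow_of_exponent_le hX1 (by linarith [min_le_left δ 1])
    exact (mul_le_mul_of_nonneg_right (le_abs_self D) (by positivity)).trans
      (mul_le_mul_of_nonneg_left h1 (abs_nonneg D))
  · obtain ⟨c, hc, D, hD⟩ := SparseExceptions.result.2.2 ε hε
    exact ⟨c, hc, holds_of (by linarith) hD⟩

end Pool.Agent.Results.MP_ccb155_nt.IntegersNearPlaces
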